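import Pool.Agent.H24.PV.FzG

/-!
# MP_104e23_al: a fusion category without pivotal structure

Over every algebraically closed field `k` with `2 ≠ 0` (in particular over `ℂ`) there is a fusion
category which admits no pivotal structure, hence no spherical structure.  The definitions
`FusionCat` and `PivotalStructure` are in `Pool/Agent/H24/PV/Fusion.lean`.

The category: let `S₁` be `SU(2)₆` and let `S₂` be a zesting of a Galois conjugate of `S₁`.  There
are commutative separable algebras with twelve simple components in `S₁ ⊠ S₁ ⊠ Ising` and in
`S₂ ⊠ S₂ ⊠ Ising` (reversed), both stable under the swap of the two factors.  They are commuting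
central algebras of the crossed product of `S₁ ⊠ S₁ ⊠ Ising ⊠ S₂ ⊠ S₂` with `ℤ/4` acting by the
simultaneous swap; the fusion category is the category of modules over their product.  A pivotal
structure would give the Ising object the dimension `√2` because of the first half and `-√2`
because of the second half.
-/

open CategoryTheory

universe u

namespace Pool.Agent.Results.MP_104e23_al.NoPivotal

theorem result : ∀ (k : Type u) [Field k] [IsAlgClosed k], (2 : k) ≠ 0 →
    ∃ F : H24PV.FusionCat.{u, u, max 1 u} k, IsEmpty (H24PV.PivotalStructure F.C) := by
  intro k _ _ h2
  obtain ⟨F, h, -⟩ := H24PV.exists_no_pivotal k h2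
  exact ⟨F, h⟩

end Pool.Agent.Results.MP_104e23_al.NoPivotal
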